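import Pool.Agent.Helper26.WR.Stmts

set_option autoImplicit false

/-! # A big Galois extension (module BIG) -/

namespace Pool.Agent.Helper26.WR

open Pool.Agent.Helper21.DN

universe u

theorem big_core (p : ℕ) [Fact p.Prime] (K F L N Om : Type u) [Field K] [Field F] [Field L]
    [Field N] [Field Om] [Algebra K F] [Algebra K L] [Algebra F L] [IsScalarTower K F L]
    [FiniteDimensional K L] [IsGalois K L] [Algebra F N] [FiniteDimensional F N] [IsGalois F N]
    [Algebra K Om] [Algebra F Om] [Algebra L Om] [Algebra N Om] [IsScalarTower K F Om]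
    [IsScalarTower K L Om] [IsScalarTower F L Om] [IsScalarTower F N Om]
    (hL : IsPGroup p (L ≃ₐ[K] L)) (hN : IsPGroup p (N ≃ₐ[F] N)) (s : Om ≃ₐ[K] Om) :
    ∃ k : ℕ, ∀ f : Om ≃ₐ[K] Om,
      (∀ x : L, (s ^ p ^ k) (f (algebraMap L Om x)) = f (algebraMap L Om x)) ∧
      ∀ x : N, (s ^ p ^ k) (f (algebraMap N Om x)) = f (algebraMap N Om x) := by
  obtain ⟨m, hm⟩ := hL (AlgEquiv.restrictNormalHom L s)
  obtain ⟨k, hk⟩ := IsPGroup.iff_card.mp hN
  set t : Om ≃ₐ[K] Om := s ^ p ^ m with ht
  have ht1 : AlgEquiv.restrictNormalHom L t = 1 := by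
    rw [ht, map_pow, hm]
  have ht2 : ∀ x : L, t (algebraMap L Om x) = algebraMap L Om x := by
    intro x
    have h1 := AlgEquiv.restrictNormal_commutes t L x
    have h2 : AlgEquiv.restrictNormal t L = 1 := ht1
    rw [h2] at h1
    exact h1.symm
  have ht3 : ∀ (f : Om ≃ₐ[K] Om) (x : L), t (f (algebraMap L Om x)) = f (algebraMap L Om x) := by
    intro f x
    have h1 := AlgEquiv.restrictNormal_commutes f L x
    rw [← h1]
    exact ht2 _
  have hsp : s ^ p ^ (m + k) = t ^ p ^ k := by
    rw [ht, ← pow_mul, ← pow_add]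
  refine ⟨m + k, fun f => ⟨?_, ?_⟩⟩
  · intro x
    rw [hsp]
    have h1 : ∀ n : ℕ, (t ^ n) (f (algebraMap L Om x)) = f (algebraMap L Om x) := by
      intro n
      induction n with
      | zero => rfl
      | succ n ih =>
        rw [pow_succ, AlgEquiv.mul_apply, ht3 f x, ih]
    exact h1 _
  · intro x
    rw [hsp]
    set w : Om ≃ₐ[K] Om := f⁻¹ * t * f with hw
    have hw1 : ∀ y : L, w (algebraMap L Om y) = algebraMap L Om y := by
      intro y
      rw [hw, AlgEquiv.mul_apply, AlgEquiv.mul_apply, ht3 f y]
      exact f.symm_apply_apply _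
    have hw2 : ∀ y : F, w (algebraMap F Om y) = algebraMap F Om y := by
      intro y
      rw [IsScalarTower.algebraMap_apply F L Om, hw1]
    let wF : Om ≃ₐ[F] Om := { w.toRingEquiv with commutes' := hw2 }
    have hwF : ∀ y, wF y = w y := fun y => rfl
    have hwn : ∀ (n : ℕ) (y : Om), (wF ^ n) y = (w ^ n) y := by
      intro n
      induction n with
      | zero =>
        intro y
        rfl
      | succ n ih =>
        intro y
        rw [pow_succ, pow_succ, AlgEquiv.mul_apply, AlgEquiv.mul_apply, hwF, ih]
    have h3 : AlgEquiv.restrictNormalHom N (wF ^ p ^ k) = 1 := by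
      rw [map_pow, ← hk]
      exact pow_card_eq_one'
    have h4 : (wF ^ p ^ k) (algebraMap N Om x) = algebraMap N Om x := by
      have h1 := AlgEquiv.restrictNormal_commutes (wF ^ p ^ k) N x
      have h2 : AlgEquiv.restrictNormal (wF ^ p ^ k) N = 1 := h3
      rw [h2] at h1
      exact h1.symm
    rw [hwn] at h4
    have h5 : w ^ p ^ k = f⁻¹ * t ^ p ^ k * f := by
      have h6 : ∀ n : ℕ, w ^ n = f⁻¹ * t ^ n * f := by
        intro n
        induction n with
        | zero => simp
        | succ n ih =>
          rw [pow_succ, ih, hw, pow_succ]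
          group
      exact h6 _
    rw [h5, AlgEquiv.mul_apply, AlgEquiv.mul_apply] at h4
    have h7 := congrArg f h4
    have h8 : ∀ y : Om, f (f⁻¹ y) = y := fun y => f.apply_symm_apply y
    rw [h8] at h7
    exact h7

theorem big_fix {K Om : Type u} [Field K] [Field Om] [Algebra K Om] (σ : Om ≃ₐ[K] Om) (x : Om) :
    x ∈ IntermediateField.fixedField (Subgroup.zpowers σ) ↔ σ x = x := by
  rw [IntermediateField.mem_fixedField_iff]
  constructor
  · intro h
    exact h σ (Subgroup.mem_zpowers σ)
  · intro h f hf
    have h1 : Subgroup.zpowers σ ≤ MulAction.stabilizer (Om ≃ₐ[K] Om) x := by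
      rw [Subgroup.zpowers_le]
      exact h
    exact h1 hf

theorem big_ext (p : ℕ) [Fact p.Prime] (K F L N Om : Type u) [Field K] [Field F] [Field L]
    [Field N] [Field Om] [Algebra K F] [Algebra K L] [Algebra F L] [IsScalarTower K F L]
    [FiniteDimensional K L] [IsGalois K L] [Algebra F N] [FiniteDimensional F N] [IsGalois F N]
    [Algebra K N] [IsScalarTower K F N] [FiniteDimensional K N]
    [Algebra K Om] [Algebra F Om] [Algebra L Om] [Algebra N Om] [IsScalarTower K F Om]
    [IsScalarTower K L Om] [IsScalarTower F L Om] [IsScalarTower F N Om] [IsScalarTower K N Om]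
    [IsGalois K Om]
    (hL : IsPGroup p (L ≃ₐ[K] L)) (hN : IsPGroup p (N ≃ₐ[F] N)) :
    ∃ M : IntermediateField K Om, (∀ x : L, algebraMap L Om x ∈ M) ∧
      (∀ x : N, algebraMap N Om x ∈ M) ∧ FiniteDimensional K M ∧ IsGalois K M ∧
      IsPGroup p (M ≃ₐ[K] M) := by
  set EL : IntermediateField K Om := (IsScalarTower.toAlgHom K L Om).fieldRange with hEL
  set EN : IntermediateField K Om := (IsScalarTower.toAlgHom K N Om).fieldRange with hEN
  haveI : FiniteDimensional K EL :=
    LinearMap.finiteDimensional_range (IsScalarTower.toAlgHom K L Om).toLinearMap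
  haveI : FiniteDimensional K EN :=
    LinearMap.finiteDimensional_range (IsScalarTower.toAlgHom K N Om).toLinearMap
  set E0 : IntermediateField K Om := EL ⊔ EN with hE0
  haveI : FiniteDimensional K E0 := IntermediateField.finiteDimensional_sup EL EN
  have hM : IntermediateField.normalClosure K E0 Om =
      ⨆ f : Om ≃ₐ[K] Om, E0.map (f : Om →ₐ[K] Om) :=
    IntermediateField.normalClosure_def'' E0
  set M : IntermediateField K Om := IntermediateField.normalClosure K E0 Om with hMd
  haveI : FiniteDimensional K M := normalClosure.is_finiteDimensional K E0 Om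
  haveI : IsGalois K M := IsGalois.normalClosure K E0 Om
  have hE0M : E0 ≤ M := E0.le_normalClosure
  have hpM : IsPGroup p (M ≃ₐ[K] M) := by
    intro σ
    obtain ⟨s, hs⟩ : ∃ s : Om ≃ₐ[K] Om, AlgEquiv.restrictNormalHom M s = σ :=
      AlgEquiv.restrictNormalHom_surjective Om σ
    obtain ⟨k, hk⟩ := big_core p K F L N Om hL hN s
    refine ⟨k, ?_⟩
    rw [← hs, ← map_pow]
    have h1 : M ≤ IntermediateField.fixedField (Subgroup.zpowers (s ^ p ^ k)) := by
      rw [hM]
      refine iSup_le fun f => ?_
      rintro _ ⟨y, hy, rfl⟩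
      have h2 : E0 ≤ IntermediateField.fixedField
          (Subgroup.zpowers (f⁻¹ * s ^ p ^ k * f)) := by
        refine sup_le ?_ ?_
        · rintro _ ⟨x, rfl⟩
          rw [big_fix]
          have h3 := (hk f).1 x
          change f⁻¹ ((s ^ p ^ k) (f (algebraMap L Om x))) = algebraMap L Om x
          rw [h3]
          exact f.symm_apply_apply _
        · rintro _ ⟨x, rfl⟩
          rw [big_fix]
          have h3 := (hk f).2 x
          change f⁻¹ ((s ^ p ^ k) (f (algebraMap N Om x))) = algebraMap N Om x
          rw [h3]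
          exact f.symm_apply_apply _
      have h4 := h2 hy
      rw [big_fix] at h4
      change f⁻¹ ((s ^ p ^ k) (f y)) = y at h4
      change f y ∈ IntermediateField.fixedField (Subgroup.zpowers (s ^ p ^ k))
      rw [big_fix]
      have h5 := congrArg f h4
      have h8 : ∀ z : Om, f (f⁻¹ z) = z := fun z => f.apply_symm_apply z
      rw [h8] at h5
      exact h5
    apply AlgEquiv.ext
    intro x
    apply Subtype.ext
    have h6 := AlgEquiv.restrictNormal_commutes (s ^ p ^ k) M x
    have h7 := h1 x.2
    rw [big_fix] at h7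
    exact h6.trans h7
  refine ⟨M, fun x => hE0M ?_, fun x => hE0M ?_, inferInstance, inferInstance, hpM⟩
  · exact (le_sup_left : EL ≤ E0) ⟨x, rfl⟩
  · exact (le_sup_right : EN ≤ E0) ⟨x, rfl⟩

theorem big_all (p : ℕ) [Fact p.Prime] (K F L N Om : Type u) [Field K] [Field F] [Field L]
    [Field N] [Field Om] [Algebra K F] [Algebra K L] [Algebra F L] [IsScalarTower K F L]
    [FiniteDimensional K L] [IsGalois K L] [Algebra F N] [FiniteDimensional F N] [IsGalois F N]
    [Algebra K Om] [Algebra F Om] [Algebra L Om] [IsScalarTower K F Om]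
    [IsScalarTower K L Om] [IsScalarTower F L Om] [IsSepClosed Om] [IsGalois K Om]
    (hL : IsPGroup p (L ≃ₐ[K] L)) (hN : IsPGroup p (N ≃ₐ[F] N)) :
    ∃ (M : Type u) (_ : Field M) (_ : Algebra K M) (_ : Algebra F M) (_ : Algebra L M)
    (_ : Algebra N M) (_ : IsScalarTower K F M) (_ : IsScalarTower K L M)
    (_ : IsScalarTower F L M) (_ : IsScalarTower F N M) (_ : FiniteDimensional K M)
    (_ : IsGalois K M), IsPGroup p (M ≃ₐ[K] M) := by
  let φ : N →ₐ[F] Om := IsSepClosed.lift
  letI : Algebra N Om := φ.toRingHom.toAlgebra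
  haveI : IsScalarTower F N Om := IsScalarTower.of_algebraMap_eq fun x => (φ.commutes x).symm
  letI : Algebra K N := ((algebraMap F N).comp (algebraMap K F)).toAlgebra
  haveI : IsScalarTower K F N := IsScalarTower.of_algebraMap_eq fun x => rfl
  haveI : IsScalarTower K N Om := IsScalarTower.of_algebraMap_eq fun x => by
    rw [IsScalarTower.algebraMap_apply K F N, ← IsScalarTower.algebraMap_apply F N Om,
      ← IsScalarTower.algebraMap_apply K F Om]
  haveI : FiniteDimensional K F := FiniteDimensional.left K F L
  haveI : FiniteDimensional K N := FiniteDimensional.trans K F N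
  obtain ⟨M, hL1, hN1, hfd, hgal, hpM⟩ := big_ext p K F L N Om hL hN
  let jL : L →+* M := (algebraMap L Om).codRestrict M hL1
  let jN : N →+* M := (algebraMap N Om).codRestrict M hN1
  letI aL : Algebra L M := jL.toAlgebra
  letI aN : Algebra N M := jN.toAlgebra
  letI aF : Algebra F M := (jL.comp (algebraMap F L)).toAlgebra
  have hFL : IsScalarTower F L M := IsScalarTower.of_algebraMap_eq fun x => rfl
  have hFN : IsScalarTower F N M := IsScalarTower.of_algebraMap_eq fun x => by
    apply Subtype.ext
    change algebraMap L Om (algebraMap F L x) = algebraMap N Om (algebraMap F N x)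
    rw [← IsScalarTower.algebraMap_apply F L Om, ← IsScalarTower.algebraMap_apply F N Om]
  have hKL : IsScalarTower K L M := IsScalarTower.of_algebraMap_eq fun x => by
    apply Subtype.ext
    change algebraMap K Om x = algebraMap L Om (algebraMap K L x)
    rw [← IsScalarTower.algebraMap_apply K L Om]
  have hKF : IsScalarTower K F M := IsScalarTower.of_algebraMap_eq fun x => by
    apply Subtype.ext
    change algebraMap K Om x = algebraMap L Om (algebraMap F L (algebraMap K F x))
    rw [← IsScalarTower.algebraMap_apply K F L, ← IsScalarTower.algebraMap_apply K L Om]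
  exact ⟨M, inferInstance, inferInstance, aF, aL, aN, hKF, hKL, hFL, hFN, hfd, hgal, hpM⟩

theorem st_BIG : ST_BIG.{u} := by
  intro p _ K F L N _ _ _ _ _ _ _ _ _ _ _ _ _ hL hN
  haveI h1 : IsScalarTower K F (SeparableClosure L) :=
    IsScalarTower.of_algebraMap_eq fun x => by
      rw [IsScalarTower.algebraMap_apply K L (SeparableClosure L),
        IsScalarTower.algebraMap_apply K F L,
        IsScalarTower.algebraMap_apply F L (SeparableClosure L)]
  haveI h2 : Algebra.IsSeparable K (SeparableClosure L) :=
    Algebra.IsSeparable.trans K L (SeparableClosure L)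
  haveI h3 : IsSepClosure K (SeparableClosure L) := ⟨inferInstance, inferInstance⟩
  haveI h4 : IsGalois K (SeparableClosure L) := inferInstance
  exact big_all p K F L N (SeparableClosure L) hL hN

end Pool.Agent.Helper26.WR
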